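import Pool.Agent.Q283.LQ.Stm

/-!
# Project LQ, job BAS: elementary properties of `Lsq` and `Od`
-/

set_option autoImplicit false

namespace Pool.Agent.Q208.LQ

open NumberField IsDedekindDomain WithZero Pool.Agent.Q283.LQ

variable {F : Type} [Field F] [NumberField F] (v : HeightOneSpectrum (𝓞 F))

theorem val_ne {a : F} (ha : a ≠ 0) : v.valuation F a ≠ 0 := (Valuation.ne_zero_iff _).2 ha

theorem od_iff {a : F} (ha : a ≠ 0) : Od v a ↔ Odd (log (v.valuation F a)) := by
  constructor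
  · rintro ⟨n, hn⟩
    rw [hn, log_exp]
    exact ⟨n, rfl⟩
  · rintro ⟨n, hn⟩
    exact ⟨n, by rw [← hn, exp_log (val_ne v ha)]⟩

theorem val_four : v.valuation F 4 ≤ 1 := by
  have h : v.valuation F (algebraMap (𝓞 F) F 4) ≤ 1 := v.valuation_le_one (K := F) (4 : 𝓞 F)
  rwa [map_ofNat] at h

theorem val_three : v.valuation F 3 ≤ 1 := by
  have h : v.valuation F (algebraMap (𝓞 F) F 3) ≤ 1 := v.valuation_le_one (K := F) (3 : 𝓞 F)
  rwa [map_ofNat] at h

theorem exp_neg_le_one (n : ℕ) : (exp (-(n : ℤ)) : ℤᵐ⁰) ≤ 1 := by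
  rw [← exp_zero, exp_le_exp]
  omega

theorem val_eq_one {y : F} (h : v.valuation F (y - 1) < 1) : v.valuation F y = 1 := by
  have h1 := Valuation.map_one_add_of_lt (v := v.valuation F) h
  rwa [add_sub_cancel] at h1

theorem lsq_val {a : F} (h : Lsq v a) : ∃ x : F, v.valuation F (a * x ^ 2) = 1 := by
  obtain ⟨x, hx⟩ := h 0
  exact ⟨x, val_eq_one v (hx.trans_le (exp_neg_le_one 0))⟩

theorem p1 {a : F} (h : Lsq v a) : a ≠ 0 ∧ ¬ Od v a := by
  obtain ⟨x, hx⟩ := lsq_val v h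
  have ha : a ≠ 0 := by
    rintro rfl
    rw [zero_mul, map_zero] at hx
    exact zero_ne_one hx
  have hx0 : x ≠ 0 := by
    rintro rfl
    rw [zero_pow two_ne_zero, mul_zero, map_zero] at hx
    exact zero_ne_one hx
  refine ⟨ha, ?_⟩
  rw [od_iff v ha]
  rintro ⟨n, hn⟩
  have h1 := congrArg log hx
  rw [map_mul, map_pow, log_mul (val_ne v ha) (pow_ne_zero 2 (val_ne v hx0)), log_pow, log_one,
    hn] at h1
  simp only [nsmul_eq_mul] at h1
  push_cast at h1
  omega

theorem p2 {a b : F} (ha : Lsq v a) (hb : Lsq v b) : Lsq v (a * b) := by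
  intro n
  obtain ⟨x, hx⟩ := ha n
  obtain ⟨z, hz⟩ := hb n
  refine ⟨x * z, ?_⟩
  have h1 : v.valuation F (b * z ^ 2) = 1 := val_eq_one v (hz.trans_le (exp_neg_le_one n))
  have e : a * b * (x * z) ^ 2 - 1 = (a * x ^ 2 - 1) * (b * z ^ 2) + (b * z ^ 2 - 1) := by ring
  rw [e]
  refine lt_of_le_of_lt (Valuation.map_add _ _ _) (max_lt ?_ hz)
  rw [map_mul, h1, mul_one]
  exact hx

theorem p3 {a : F} (ha : a ≠ 0) : Lsq v (a ^ 2) := by
  intro n
  refine ⟨a⁻¹, ?_⟩
  have e : a ^ 2 * a⁻¹ ^ 2 - 1 = 0 := by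
    rw [← mul_pow, mul_inv_cancel₀ ha, one_pow, sub_self]
  rw [e, map_zero]
  exact exp_pos

theorem p4 {a b : F} (ha : a ≠ 0) (hb : b ≠ 0) : Od v (a * b) ↔ (Od v a ↔ ¬ Od v b) := by
  rw [od_iff v (mul_ne_zero ha hb), od_iff v ha, od_iff v hb, map_mul,
    log_mul (val_ne v ha) (val_ne v hb), Int.odd_add, Int.not_odd_iff_even]

theorem lt_one_le {y : ℤᵐ⁰} (h : y < 1) : y ≤ exp (-1 : ℤ) := by
  by_cases hy : y = 0
  · rw [hy]; exact zero_le
  · rw [← exp_log hy, exp_le_exp]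
    rw [← exp_log hy, ← exp_zero, exp_lt_exp] at h
    omega

theorem p5 {a x : F} (h : v.valuation F (a * x ^ 2 - 1) < v.valuation F 4) : Lsq v a := by
  have h4 : (4 : F) ≠ 0 := by norm_num
  have key : ∀ k : ℕ, ∃ x m : F, a * x ^ 2 = 1 + 4 * m ∧
      v.valuation F m ≤ exp (-((k : ℤ) + 1)) := by
    intro k
    induction k with
    | zero =>
      refine ⟨x, (a * x ^ 2 - 1) / 4, ?_, ?_⟩
      · field_simp
        ring
      · rw [map_div₀]
        have h1 : v.valuation F (a * x ^ 2 - 1) / v.valuation F 4 < 1 :=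
          (div_lt_one₀ (zero_lt_iff.2 (val_ne v h4))).2 h
        have h2 := lt_one_le h1
        simpa using h2
    | succ k ih =>
      obtain ⟨x, m, hx, hm⟩ := ih
      refine ⟨x * (1 - 2 * m), m ^ 2 * (-3 + 4 * m), ?_, ?_⟩
      · have e : a * (x * (1 - 2 * m)) ^ 2 = (a * x ^ 2) * (1 - 2 * m) ^ 2 := by ring
        rw [e, hx]
        ring
      · have hm1 : v.valuation F m ≤ 1 := by
          refine hm.trans ?_
          rw [← exp_zero, exp_le_exp]
          omega
        have h1 : v.valuation F (-3 + 4 * m) ≤ 1 := by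
          refine (Valuation.map_add _ _ _).trans (max_le ?_ ?_)
          · rw [Valuation.map_neg]; exact val_three v
          · rw [map_mul]; exact mul_le_one' (val_four v) hm1
        rw [map_mul, map_pow]
        calc v.valuation F m ^ 2 * v.valuation F (-3 + 4 * m)
            ≤ exp (-((k : ℤ) + 1)) ^ 2 * 1 :=
              mul_le_mul' (pow_le_pow_left' hm 2) h1
          _ ≤ exp (-(((k + 1 : ℕ) : ℤ) + 1)) := by
              rw [mul_one, ← exp_nsmul, exp_le_exp]
              simp only [nsmul_eq_mul]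
              push_cast
              omega
  intro n
  obtain ⟨x, m, hx, hm⟩ := key n
  refine ⟨x, ?_⟩
  rw [hx, add_sub_cancel_left, map_mul]
  calc v.valuation F 4 * v.valuation F m ≤ 1 * exp (-((n : ℤ) + 1)) :=
        mul_le_mul' (val_four v) hm
    _ < exp (-(n : ℤ)) := by
        rw [one_mul, exp_lt_exp]
        omega

/-- multiplication by squares -/
theorem lsq_mul_sq {a y : F} (hy : y ≠ 0) (h : Lsq v (a * y ^ 2)) : Lsq v a := by
  have h1 := p2 v h (p3 v (inv_ne_zero hy))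
  have e : a * y ^ 2 * y⁻¹ ^ 2 = a := by
    field_simp
  rwa [e] at h1

theorem unit_rep {a : F} (ha : a ≠ 0) (h : ¬ Od v a) :
    ∃ y : F, y ≠ 0 ∧ v.valuation F (a * y ^ 2) = 1 := by
  rw [od_iff v ha, Int.not_odd_iff_even] at h
  obtain ⟨i, hi⟩ := h
  obtain ⟨y, hy⟩ := v.valuation_surjective F (exp (-i))
  refine ⟨y, ?_, ?_⟩
  · rintro rfl
    rw [map_zero] at hy
    exact exp_ne_zero hy.symm
  · rw [map_mul, map_pow, hy, ← exp_log (val_ne v ha), hi, ← exp_nsmul, ← exp_add, ← exp_zero]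
    congr 1
    simp only [nsmul_eq_mul]
    push_cast
    ring

theorem int_rep {a : F} (ha : v.valuation F a = 1) :
    ∃ α : 𝓞 F, v.valuation F (algebraMap (𝓞 F) F α - a) < 1 ∧ α ∉ v.asIdeal := by
  obtain ⟨α, hα⟩ := v.exists_valuation_sub_lt_of_integer (K := F) ha.le 1
  rw [Units.val_one] at hα
  refine ⟨α, hα, ?_⟩
  intro hmem
  rw [← v.valuation_lt_one_iff_mem (K := F)] at hmem
  have h1 : v.valuation F a < 1 := by
    have e : a = algebraMap (𝓞 F) F α - (algebraMap (𝓞 F) F α - a) := by ring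
    rw [e]
    exact lt_of_le_of_lt (Valuation.map_sub _ _ _) (max_lt hmem hα)
  rw [ha] at h1
  exact lt_irrefl _ h1

open Classical in
theorem p6u (hd : ¬ Dy v) {a b : F} (ha : v.valuation F a = 1) (hb : v.valuation F b = 1)
    (hna : ¬ Lsq v a) (hnb : ¬ Lsq v b) : Lsq v (a * b) := by
  have : Finite (𝓞 F ⧸ v.asIdeal) := Ideal.finiteQuotientOfFreeOfNeBot v.asIdeal v.ne_bot
  have : Fintype (𝓞 F ⧸ v.asIdeal) := Fintype.ofFinite _
  have hmax : v.asIdeal.IsMaximal := v.isMaximal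
  let _ : Field (𝓞 F ⧸ v.asIdeal) := Ideal.Quotient.field v.asIdeal
  have h2 : v.valuation F 4 = 1 := by
    have h3 : (4 : 𝓞 F) ∉ v.asIdeal := by
      intro h
      have e : (4 : 𝓞 F) = 2 * 2 := by norm_num
      rw [e] at h
      rcases v.isPrime.mem_or_mem h with h | h
      · exact hd h
      · exact hd h
    have h4 := (v.valuation_eq_one_iff_notMem (K := F)).2 h3
    rwa [map_ofNat] at h4
  -- squares modulo `v` give local squares
  have key : ∀ (c : F) (γ : 𝓞 F), v.valuation F c = 1 →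
      v.valuation F (algebraMap (𝓞 F) F γ - c) < 1 →
      IsSquare (Ideal.Quotient.mk v.asIdeal γ) → γ ∉ v.asIdeal → Lsq v c := by
    intro c γ hc hγ hsq hγ0
    obtain ⟨s, hs⟩ := hsq
    obtain ⟨β, rfl⟩ := Ideal.Quotient.mk_surjective s
    have hs' : γ - β * β ∈ v.asIdeal := by
      rw [← Ideal.Quotient.eq_zero_iff_mem, map_sub, map_mul, hs, sub_self]
    have hβ : β ∉ v.asIdeal := by
      intro h
      apply hγ0
      have : γ = (γ - β * β) + β * β := by ring
      rw [this]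
      exact v.asIdeal.add_mem hs' (v.asIdeal.mul_mem_left _ h)
    have hβ1 := (v.valuation_eq_one_iff_notMem (K := F)).2 hβ
    have hβ0 : algebraMap (𝓞 F) F β ≠ 0 := by
      intro h
      rw [h, map_zero] at hβ1
      exact zero_ne_one hβ1
    refine p5 v (x := (algebraMap (𝓞 F) F β)⁻¹) ?_
    rw [h2]
    have e : c * (algebraMap (𝓞 F) F β)⁻¹ ^ 2 - 1 =
        ((algebraMap (𝓞 F) F (γ - β * β)) - (algebraMap (𝓞 F) F γ - c)) *
          (algebraMap (𝓞 F) F β)⁻¹ ^ 2 := by
      rw [map_sub, map_mul]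
      field_simp
      ring
    rw [e, map_mul, map_pow, map_inv₀, hβ1, inv_one, one_pow, mul_one]
    refine lt_of_le_of_lt (Valuation.map_sub _ _ _) (max_lt ?_ hγ)
    exact (v.valuation_lt_one_iff_mem (K := F) _).2 hs'
  obtain ⟨α, hα, hα0⟩ := int_rep v ha
  obtain ⟨β, hβ, hβ0⟩ := int_rep v hb
  have hA : ¬ IsSquare (Ideal.Quotient.mk v.asIdeal α) := fun h => hna (key a α ha hα h hα0)
  have hB : ¬ IsSquare (Ideal.Quotient.mk v.asIdeal β) := fun h => hnb (key b β hb hβ h hβ0)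
  have hAB : IsSquare (Ideal.Quotient.mk v.asIdeal (α * β)) := by
    have h0 : Ideal.Quotient.mk v.asIdeal (α * β) ≠ 0 := by
      rw [Ne, Ideal.Quotient.eq_zero_iff_mem]
      intro h
      rcases v.isPrime.mem_or_mem h with h | h
      · exact hα0 h
      · exact hβ0 h
    rw [← quadraticChar_one_iff_isSquare h0, map_mul, map_mul,
      quadraticChar_neg_one_iff_not_isSquare.2 hA, quadraticChar_neg_one_iff_not_isSquare.2 hB]
    norm_num
  refine key (a * b) (α * β) (by rw [map_mul, ha, hb, mul_one]) ?_ hAB ?_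
  · have e : algebraMap (𝓞 F) F (α * β) - a * b =
        (algebraMap (𝓞 F) F α - a) * algebraMap (𝓞 F) F β +
          a * (algebraMap (𝓞 F) F β - b) := by
      rw [map_mul]; ring
    rw [e]
    refine lt_of_le_of_lt (Valuation.map_add _ _ _) (max_lt ?_ ?_)
    · rw [map_mul, (v.valuation_eq_one_iff_notMem (K := F)).2 hβ0, mul_one]
      exact hα
    · rw [map_mul, ha, one_mul]
      exact hβ
  · intro h
    rcases v.isPrime.mem_or_mem h with h | h
    · exact hα0 h
    · exact hβ0 h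

theorem bas : S_BAS := by
  intro F _ _ v
  refine ⟨fun a h => p1 v h, fun a b ha hb => p2 v ha hb, fun a ha => p3 v ha,
    fun a b ha hb => p4 v ha hb, fun a x h => p5 v h, ?_⟩
  intro hd a b ha hb hoa hob hna hnb
  obtain ⟨y, hy, hay⟩ := unit_rep v ha hoa
  obtain ⟨z, hz, hbz⟩ := unit_rep v hb hob
  have h1 := p6u v hd hay hbz (fun h => hna (lsq_mul_sq v hy h)) (fun h => hnb (lsq_mul_sq v hz h))
  have e : a * y ^ 2 * (b * z ^ 2) = a * b * (y * z) ^ 2 := by ring
  rw [e] at h1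
  exact lsq_mul_sq v (mul_ne_zero hy hz) h1

end Pool.Agent.Q208.LQ
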